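import Mathlib

/-!
# Fractional Helly property and the type-counting function `f_φ` of a partitioned formula
-/

namespace Pool.Agent.W_MP_f4a2a6_lc

universe u

/-- The set of all `k`-element `J ⊆ [n]` such that the sets `S i` with `i ∈ J` have a common
element (`Cons_k(S_1, ..., S_n)`). -/
def Cons {X : Type u} {n : ℕ} (k : ℕ) (S : Fin n → Set X) : Set (Finset (Fin n)) :=
  {J | J.card = k ∧ (⋂ i ∈ J, S i).Nonempty}

/-- The family `F` satisfies `FHP(k, α, β)`. -/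
def FHPWith {X : Type u} (F : Set (Set X)) (k : ℕ) (α β : ℝ) : Prop :=
  ∀ (n : ℕ) (S : Fin n → Set X), (∀ i, S i ∈ F) →
    α * (n.choose k : ℝ) ≤ ((Cons k S).ncard : ℝ) →
      ∃ J : Finset (Fin n), β * (n : ℝ) ≤ (J.card : ℝ) ∧ (⋂ i ∈ J, S i).Nonempty

section Defs

variable {L : FirstOrder.Language.{0, 0}} {m n : ℕ} (φ : L.Formula (Fin m ⊕ Fin n))
  (M : Type u) [L.Structure M]

/-- The set `φ(M, b)`, for a partitioned formula `φ(x, y)` and a parameter tuple `b`. -/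
def inst (b : Fin n → M) : Set (Fin m → M) := {a | φ.Realize (Sum.elim a b)}

/-- The partitioned formula `φ(x, y)` has the fractional Helly property in `M`. -/
def HasFHP : Prop :=
  ∃ k : ℕ, 1 ≤ k ∧ ∀ α : ℝ, 0 < α → ∃ β : ℝ, 0 < β ∧ FHPWith (Set.range (inst φ M)) k α β

/-- `p` is the set of parameters of a consistent set of formulas `{φ(x, a_i) : i < k}` with all
`a_i ∈ A`. -/
def IsType (k : ℕ) (A : Finset (Fin n → M)) (p : Finset (Fin n → M)) : Prop :=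
  ∃ a : Fin k → (Fin n → M), (∀ i, a i ∈ A) ∧ (p : Set (Fin n → M)) = Set.range a ∧
    ∃ x : Fin m → M, ∀ i, x ∈ inst φ M (a i)

/-- `p` and `q` are 1-inconsistent. -/
def OneInconsistent (p q : Finset (Fin n → M)) : Prop :=
  ∃ a ∈ p, ∃ b ∈ q, ¬ ∃ x : Fin m → M, x ∈ inst φ M a ∧ x ∈ inst φ M b

/-- The function `f_φ(k, l)`. -/
noncomputable def typeCount (k l : ℕ) : ℕ :=
  sSup {N : ℕ | ∃ (A : Finset (Fin n → M)) (S : Finset (Finset (Fin n → M))),
    A.card = l ∧ (∀ p ∈ S, IsType φ M k A p) ∧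
      (∀ p ∈ S, ∀ q ∈ S, p ≠ q → OneInconsistent φ M p q) ∧ S.card = N}

end Defs

/-- `f` is polynomially bounded: some `d` works for all `k`. -/
def PolyBounded (f : ℕ → ℕ → ℕ) : Prop :=
  ∃ d : ℕ, ∀ k : ℕ, 1 ≤ k → ∃ C : ℝ, ∀ l : ℕ, 1 ≤ l → (f k l : ℝ) ≤ C * (l : ℝ) ^ d

end Pool.Agent.W_MP_f4a2a6_lc
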