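import Pool.Agent.W_MP_f4a2a6_lc.Defs

/-!
# Auxiliary results for the counterexample
-/

namespace Pool.Agent.W_MP_f4a2a6_lc

universe u

/-! ## General facts -/

section General

variable {L : FirstOrder.Language.{0, 0}} {m n : ℕ} (φ : L.Formula (Fin m ⊕ Fin n))
  (M : Type u) [L.Structure M]

theorem bddAbove_typeCount (k l : ℕ) :
    BddAbove {N : ℕ | ∃ (A : Finset (Fin n → M)) (S : Finset (Finset (Fin n → M))),
    A.card = l ∧ (∀ p ∈ S, IsType φ M k A p) ∧
      (∀ p ∈ S, ∀ q ∈ S, p ≠ q → OneInconsistent φ M p q) ∧ S.card = N} := by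
  classical
  refine ⟨2 ^ l, ?_⟩
  rintro N ⟨A, S, hA, hS, -, rfl⟩
  have hsub : S ⊆ A.powerset := by
    intro p hp
    rw [Finset.mem_powerset]
    obtain ⟨a, ha, hpa, -⟩ := hS p hp
    intro y hy
    have : y ∈ (p : Set (Fin n → M)) := hy
    rw [hpa] at this
    obtain ⟨i, rfl⟩ := this
    exact ha i
  calc S.card ≤ A.powerset.card := Finset.card_le_card hsub
    _ = 2 ^ l := by rw [Finset.card_powerset, hA]

/-- A family with two piercing points satisfies `FHP(k, α, 1/2)` for all `k` and `α`. -/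
theorem fhpWith_of_pierced {X : Type u} (F : Set (Set X)) (x₁ x₂ : X)
    (h : ∀ S ∈ F, x₁ ∈ S ∨ x₂ ∈ S) (k : ℕ) (α : ℝ) : FHPWith F k α (1 / 2) := by
  classical
  intro n S hS _
  set J₁ : Finset (Fin n) := Finset.univ.filter (fun i => x₁ ∈ S i) with hJ₁
  set J₂ : Finset (Fin n) := Finset.univ.filter (fun i => x₂ ∈ S i) with hJ₂
  have hun : J₁ ∪ J₂ = Finset.univ := by
    ext i
    simp only [hJ₁, hJ₂, Finset.mem_union, Finset.mem_filter, Finset.mem_univ, true_and, iff_true]
    exact h _ (hS i)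
  have hcard : n ≤ J₁.card + J₂.card := by
    calc n = (Finset.univ : Finset (Fin n)).card := by simp
      _ = (J₁ ∪ J₂).card := by rw [hun]
      _ ≤ J₁.card + J₂.card := Finset.card_union_le _ _
  have hcard' : (n : ℝ) ≤ J₁.card + J₂.card := by exact_mod_cast hcard
  rcases le_total J₁.card J₂.card with hle | hle
  · refine ⟨J₂, ?_, ⟨x₂, ?_⟩⟩
    · have : (J₁.card : ℝ) ≤ J₂.card := by exact_mod_cast hle
      linarith
    · simp only [Set.mem_iInter]
      intro i hi
      simpa [hJ₂] using hi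
  · refine ⟨J₁, ?_, ⟨x₁, ?_⟩⟩
    · have : (J₂.card : ℝ) ≤ J₁.card := by exact_mod_cast hle
      linarith
    · simp only [Set.mem_iInter]
      intro i hi
      simpa [hJ₁] using hi

end General

/-! ## The language and the structure -/

/-- One binary relation symbol. -/
inductive Rel : ℕ → Type
  | r : Rel 2

/-- The language with one binary relation symbol. -/
def Lg : FirstOrder.Language.{0, 0} := ⟨fun _ => Empty, Rel⟩

/-- The universe of the structure. -/
inductive Pt : Type
  | par (s : Bool) (i a : ℕ)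
  | pt (f : ℕ → ℕ)
  | inf (s : Bool)

/-- The relation of the structure. -/
def E : Pt → Pt → Prop
  | .pt f, .par _ i a => f i = a
  | .inf s, .par s' _ _ => s = s'
  | .par _ _ _, .par _ _ _ => False
  | _, .pt _ => True
  | _, .inf _ => True

instance : Lg.Structure Pt where
  funMap := fun f => Empty.elim f
  RelMap := fun R v => match R with
    | Rel.r => E (v 0) (v 1)

instance : Nonempty Pt := ⟨.inf true⟩

/-- The relation symbol. -/
def rel : Lg.Relations 2 := Rel.r

/-- The interpretation of the relation symbol in a structure. -/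
def RR (M : Type u) [Lg.Structure M] (x y : M) : Prop :=
  FirstOrder.Language.Structure.RelMap rel ![x, y]

/-- The formula `φ(x, y)`. -/
def phi : Lg.Formula (Fin 1 ⊕ Fin 1) :=
  rel.formula₂ (FirstOrder.Language.Term.var (Sum.inl 0)) (FirstOrder.Language.Term.var (Sum.inr 0))

theorem mem_inst_phi (M : Type u) [Lg.Structure M] (b : Fin 1 → M) (x : Fin 1 → M) :
    x ∈ inst phi M b ↔ RR M (x 0) (b 0) := by
  simp [inst, phi, RR, FirstOrder.Language.Formula.realize_rel₂]

theorem RR_Pt (x y : Pt) : RR Pt x y ↔ E x y := by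
  rfl

/-- Atomic formula. -/
def at2 {α : Type} (v w : α) : Lg.Formula α :=
  rel.formula₂ (FirstOrder.Language.Term.var v) (FirstOrder.Language.Term.var w)

theorem realize_at2 {α : Type} (M : Type u) [Lg.Structure M] (v w : α) (f : α → M) :
    (at2 v w).Realize f ↔ RR M (f v) (f w) := by
  simp [at2, RR, FirstOrder.Language.Formula.realize_rel₂]

/-! ## The sentences -/

/-- Two points pierce all instances. -/
noncomputable def sigma : Lg.Sentence :=
  FirstOrder.Language.Formula.iExs (α := Empty) Bool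
    (FirstOrder.Language.Formula.iAlls (α := Empty ⊕ Bool) Unit
      (at2 (Sum.inl (Sum.inr true)) (Sum.inr ()) ⊔ at2 (Sum.inl (Sum.inr false)) (Sum.inr ())))

theorem realize_sigma (M : Type u) [Lg.Structure M] :
    M ⊨ sigma ↔ ∃ x₁ x₂ : M, ∀ y : M, RR M x₁ y ∨ RR M x₂ y := by
  unfold sigma FirstOrder.Language.Sentence.Realize
  rw [FirstOrder.Language.Formula.realize_iExs]
  constructor
  · rintro ⟨i, hi⟩
    rw [FirstOrder.Language.Formula.realize_iAlls] at hi
    refine ⟨i true, i false, fun y => ?_⟩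
    have := hi (fun _ => y)
    rw [FirstOrder.Language.Formula.realize_sup, realize_at2, realize_at2] at this
    simpa using this
  · rintro ⟨x₁, x₂, h⟩
    refine ⟨fun b => if b = true then x₁ else x₂, ?_⟩
    rw [FirstOrder.Language.Formula.realize_iAlls]
    intro y
    rw [FirstOrder.Language.Formula.realize_sup, realize_at2, realize_at2]
    simpa using h (y ())

/-- The index set of the parameters. -/
abbrev Ix (K N : ℕ) : Type := Bool × Fin K × Fin N

/-- The parameters are distinct. -/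
noncomputable def tau1 (K N : ℕ) : Lg.Formula (Empty ⊕ Ix K N) :=
  FirstOrder.Language.Formula.iInf (fun p : {p : Ix K N × Ix K N // p.1 ≠ p.2} =>
    (FirstOrder.Language.Term.equal (FirstOrder.Language.Term.var (Sum.inr p.1.1))
      (FirstOrder.Language.Term.var (Sum.inr p.1.2)) : Lg.Formula (Empty ⊕ Ix K N)).not)

/-- All choice functions give consistent types. -/
noncomputable def tau2 (K N : ℕ) : Lg.Formula (Empty ⊕ Ix K N) :=
  FirstOrder.Language.Formula.iInf (fun f : Fin K → Fin N =>
    FirstOrder.Language.Formula.iExs Unit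
      (FirstOrder.Language.Formula.iInf (fun q : Bool × Fin K =>
        (at2 (Sum.inr ()) (Sum.inl (Sum.inr (q.1, q.2, f q.2))) :
          Lg.Formula ((Empty ⊕ Ix K N) ⊕ Unit)))))

/-- Conflicts. -/
noncomputable def tau3 (K N : ℕ) : Lg.Formula (Empty ⊕ Ix K N) :=
  FirstOrder.Language.Formula.iInf (fun p : {p : Fin K × Fin N × Fin N // p.2.1 ≠ p.2.2} =>
    (FirstOrder.Language.Formula.iExs Unit
      ((at2 (Sum.inr ()) (Sum.inl (Sum.inr (true, p.1.1, p.1.2.1))) :
          Lg.Formula ((Empty ⊕ Ix K N) ⊕ Unit)) ⊓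
        at2 (Sum.inr ()) (Sum.inl (Sum.inr (false, p.1.1, p.1.2.2))))).not)

/-- The sentence asserting the existence of a configuration of size `K × N`. -/
noncomputable def tau (K N : ℕ) : Lg.Sentence :=
  FirstOrder.Language.Formula.iExs (α := Empty) (Ix K N) (tau1 K N ⊓ (tau2 K N ⊓ tau3 K N))

/-- The semantic content of `tau`. -/
def Config (M : Type u) [Lg.Structure M] (K N : ℕ) (b : Ix K N → M) : Prop :=
  Function.Injective b ∧
  (∀ f : Fin K → Fin N, ∃ x : M, ∀ q : Bool × Fin K, RR M x (b (q.1, q.2, f q.2))) ∧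
  (∀ (i : Fin K) (a a' : Fin N), a ≠ a' →
    ¬ ∃ x : M, RR M x (b (true, i, a)) ∧ RR M x (b (false, i, a')))

theorem realize_tau1 (M : Type u) [Lg.Structure M] (K N : ℕ) (v : Empty → M) (b : Ix K N → M) :
    (tau1 K N).Realize (Sum.elim v b) ↔ Function.Injective b := by
  unfold tau1
  rw [FirstOrder.Language.Formula.realize_iInf]
  constructor
  · intro h u w huw
    by_contra hne
    have := h ⟨(u, w), hne⟩
    rw [FirstOrder.Language.Formula.realize_not] at this
    apply this
    simp [FirstOrder.Language.Formula.realize_equal, huw]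
  · intro h p
    rw [FirstOrder.Language.Formula.realize_not]
    intro hp
    rw [FirstOrder.Language.Formula.realize_equal] at hp
    exact p.2 (h (by simpa using hp))

theorem realize_tau2 (M : Type u) [Lg.Structure M] (K N : ℕ) (v : Empty → M) (b : Ix K N → M) :
    (tau2 K N).Realize (Sum.elim v b) ↔
      ∀ f : Fin K → Fin N, ∃ x : M, ∀ q : Bool × Fin K, RR M x (b (q.1, q.2, f q.2)) := by
  unfold tau2
  rw [FirstOrder.Language.Formula.realize_iInf]
  refine forall_congr' fun f => ?_
  rw [FirstOrder.Language.Formula.realize_iExs]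
  constructor
  · rintro ⟨i, hi⟩
    refine ⟨i (), fun q => ?_⟩
    rw [FirstOrder.Language.Formula.realize_iInf] at hi
    have := hi q
    rw [realize_at2] at this
    simpa using this
  · rintro ⟨x, hx⟩
    refine ⟨fun _ => x, ?_⟩
    rw [FirstOrder.Language.Formula.realize_iInf]
    intro q
    rw [realize_at2]
    simpa using hx q

theorem realize_tau3 (M : Type u) [Lg.Structure M] (K N : ℕ) (v : Empty → M) (b : Ix K N → M) :
    (tau3 K N).Realize (Sum.elim v b) ↔
      ∀ (i : Fin K) (a a' : Fin N), a ≠ a' →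
        ¬ ∃ x : M, RR M x (b (true, i, a)) ∧ RR M x (b (false, i, a')) := by
  unfold tau3
  rw [FirstOrder.Language.Formula.realize_iInf]
  constructor
  · rintro h i a a' hne ⟨x, hx, hx'⟩
    have := h ⟨(i, a, a'), hne⟩
    rw [FirstOrder.Language.Formula.realize_not, FirstOrder.Language.Formula.realize_iExs] at this
    apply this
    refine ⟨fun _ => x, ?_⟩
    rw [FirstOrder.Language.Formula.realize_inf, realize_at2, realize_at2]
    exact ⟨by simpa using hx, by simpa using hx'⟩
  · intro h p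
    rw [FirstOrder.Language.Formula.realize_not, FirstOrder.Language.Formula.realize_iExs]
    rintro ⟨x, hx⟩
    rw [FirstOrder.Language.Formula.realize_inf, realize_at2, realize_at2] at hx
    exact h p.1.1 p.1.2.1 p.1.2.2 p.2 ⟨x (), by simpa using hx.1, by simpa using hx.2⟩

theorem realize_tau (M : Type u) [Lg.Structure M] (K N : ℕ) :
    M ⊨ tau K N ↔ ∃ b : Ix K N → M, Config M K N b := by
  unfold tau FirstOrder.Language.Sentence.Realize
  rw [FirstOrder.Language.Formula.realize_iExs]
  refine exists_congr fun b => ?_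
  rw [FirstOrder.Language.Formula.realize_inf, FirstOrder.Language.Formula.realize_inf,
    realize_tau1, realize_tau2, realize_tau3]
  rfl

/-! ## The structure satisfies the sentences -/

theorem sigma_Pt : Pt ⊨ sigma := by
  rw [realize_sigma]
  refine ⟨.inf true, .inf false, fun y => ?_⟩
  rw [RR_Pt, RR_Pt]
  cases y with
  | par s i a => cases s <;> simp [E]
  | pt f => left; simp [E]
  | inf s => left; simp [E]

theorem tau_Pt (K N : ℕ) : Pt ⊨ tau K N := by
  rw [realize_tau]
  refine ⟨fun u => .par u.1 (u.2.1 : ℕ) (u.2.2 : ℕ), ?_, ?_, ?_⟩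
  · rintro ⟨s, i, a⟩ ⟨s', i', a'⟩ h
    simp only [Pt.par.injEq] at h
    obtain ⟨h1, h2, h3⟩ := h
    simp only [Prod.mk.injEq]
    exact ⟨h1, Fin.ext h2, Fin.ext h3⟩
  · intro f
    refine ⟨.pt (fun j => if hj : j < K then (f ⟨j, hj⟩ : ℕ) else 0), fun q => ?_⟩
    rw [RR_Pt]
    simp [E]
  · rintro i a a' hne ⟨x, hx, hx'⟩
    rw [RR_Pt] at hx hx'
    cases x with
    | par s i a => exact hx
    | pt f =>
      simp only [E] at hx hx'
      exact hne (Fin.ext (hx.symm.trans hx'))
    | inf s =>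
      simp only [E] at hx hx'
      rw [hx] at hx'
      exact absurd hx' (by decide)

/-! ## Consequences in an arbitrary structure -/

theorem hasFHP_of_sigma (M : Type u) [Lg.Structure M] (h : M ⊨ sigma) : HasFHP phi M := by
  rw [realize_sigma] at h
  obtain ⟨x₁, x₂, h⟩ := h
  refine ⟨1, le_rfl, fun α _ => ⟨1 / 2, by norm_num, ?_⟩⟩
  refine fhpWith_of_pierced _ (fun _ => x₁) (fun _ => x₂) ?_ 1 α
  rintro S ⟨b, rfl⟩
  rw [mem_inst_phi, mem_inst_phi]
  exact h (b 0)

theorem le_typeCount_of_config (M : Type u) [Lg.Structure M] (K N : ℕ) (b : Ix K N → M)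
    (h : Config M K N b) : N ^ K ≤ typeCount phi M (2 * K) (2 * K * N) := by
  classical
  obtain ⟨hinj, hcons, hconf⟩ := h
  -- parameters as tuples
  set c : Ix K N → (Fin 1 → M) := fun u _ => b u with hc
  have hcinj : Function.Injective c := by
    intro u w huw
    exact hinj (congrFun huw 0)
  set A : Finset (Fin 1 → M) := Finset.univ.image c with hA
  set P : (Fin K → Fin N) → Finset (Fin 1 → M) :=
    fun f => Finset.univ.image (fun q : Bool × Fin K => c (q.1, q.2, f q.2)) with hP
  have hPne : ∀ f g, f ≠ g → OneInconsistent phi M (P f) (P g) := by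
    intro f g hfg
    obtain ⟨i, hi⟩ : ∃ i, f i ≠ g i := by
      by_contra hcon
      push Not at hcon
      exact hfg (funext hcon)
    refine ⟨c (true, i, f i), ?_, c (false, i, g i), ?_, ?_⟩
    · exact Finset.mem_image.mpr ⟨(true, i), Finset.mem_univ _, rfl⟩
    · exact Finset.mem_image.mpr ⟨(false, i), Finset.mem_univ _, rfl⟩
    · rintro ⟨x, hx, hx'⟩
      rw [mem_inst_phi] at hx hx'
      exact hconf i (f i) (g i) hi ⟨x 0, hx, hx'⟩
  have hPinj : Function.Injective P := by
    intro f g hfg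
    by_contra hne
    obtain ⟨u, hu, w, hw, hno⟩ := hPne f g hne
    rw [← hfg] at hw
    obtain ⟨q, -, rfl⟩ := Finset.mem_image.mp hu
    obtain ⟨q', -, rfl⟩ := Finset.mem_image.mp hw
    obtain ⟨x, hx⟩ := hcons f
    exact hno ⟨fun _ => x, (mem_inst_phi _ _ _).mpr (hx q), (mem_inst_phi _ _ _).mpr (hx q')⟩
  refine le_csSup (bddAbove_typeCount phi M (2 * K) (2 * K * N)) ?_
  refine ⟨A, Finset.univ.image P, ?_, ?_, ?_, ?_⟩
  · rw [hA, Finset.card_image_of_injective _ hcinj, Finset.card_univ]
    simp only [Fintype.card_prod, Fintype.card_bool, Fintype.card_fin]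
    ring
  · intro p hp
    obtain ⟨f, -, rfl⟩ := Finset.mem_image.mp hp
    have e : Fin (2 * K) ≃ Bool × Fin K :=
      Fintype.equivOfCardEq (by simp [Fintype.card_prod])
    refine ⟨fun j => c ((e j).1, (e j).2, f (e j).2), ?_, ?_, ?_⟩
    · intro j
      exact Finset.mem_image.mpr ⟨_, Finset.mem_univ _, rfl⟩
    · ext y
      simp only [hP, Finset.coe_image, Finset.coe_univ, Set.image_univ, Set.mem_range]
      constructor
      · rintro ⟨q, rfl⟩
        exact ⟨e.symm q, by simp⟩
      · rintro ⟨j, rfl⟩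
        exact ⟨e j, rfl⟩
    · obtain ⟨x, hx⟩ := hcons f
      exact ⟨fun _ => x, fun j => (mem_inst_phi _ _ _).mpr (hx (e j))⟩
  · intro p hp q hq hpq
    obtain ⟨f, -, rfl⟩ := Finset.mem_image.mp hp
    obtain ⟨g, -, rfl⟩ := Finset.mem_image.mp hq
    exact hPne f g (fun h => hpq (by rw [h]))
  · rw [Finset.card_image_of_injective _ hPinj, Finset.card_univ]
    simp

theorem not_polyBounded (f : ℕ → ℕ → ℕ) (h : ∀ K N : ℕ, N ^ K ≤ f (2 * K) (2 * K * N)) :
    ¬ PolyBounded f := by
  rintro ⟨d, hd⟩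
  obtain ⟨C, hC⟩ := hd (2 * (d + 1)) (by omega)
  -- choose N large
  obtain ⟨N, hN⟩ := exists_nat_gt (max 1 (C * (2 * (d + 1) : ℝ) ^ d))
  have hN1 : (1 : ℝ) < N := lt_of_le_of_lt (le_max_left _ _) hN
  have hN2 : C * (2 * (d + 1) : ℝ) ^ d < N := lt_of_le_of_lt (le_max_right _ _) hN
  have hNpos : 1 ≤ N := by
    have : (1 : ℝ) < (N : ℝ) := hN1
    have : 1 < N := by exact_mod_cast this
    omega
  have h1 : ((N ^ (d + 1) : ℕ) : ℝ) ≤ (f (2 * (d + 1)) (2 * (d + 1) * N) : ℝ) := by
    exact_mod_cast h (d + 1) N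
  have h2 := hC (2 * (d + 1) * N) (by
    have : 0 < 2 * (d + 1) * N := by positivity
    omega)
  have h3 : ((N ^ (d + 1) : ℕ) : ℝ) ≤ C * ((2 * (d + 1) * N : ℕ) : ℝ) ^ d := h1.trans h2
  push_cast at h3
  rw [mul_pow, ← mul_assoc] at h3
  have hNd : (0 : ℝ) < (N : ℝ) ^ d := by positivity
  have h4 : (N : ℝ) ^ (d + 1) = N * (N : ℝ) ^ d := by ring
  rw [h4] at h3
  have h5 := le_of_mul_le_mul_right h3 hNd
  linarith

end Pool.Agent.W_MP_f4a2a6_lc
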